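import Mathlib

set_option autoImplicit false

/-!
# Three cells, none of which is an exponential IP set of type I

Let `T 0 = 1`, `T (k+1) = 2 ^ T k`. The *level* of `n` is the least `k` with `n < T k`. Put `n` in
the cell `Z` if `√(T k) ≤ n < T k` for some `k`, and otherwise in one of two cells according to the
parity of its level.

* If `y` is not in `Z` and `2 ≤ a ≤ y`, then the level of `a ^ y` is exactly one more than the
  level of `y`. So an infinite `X` with all `x_j` and all `x_i ^ x_j` (`i < j`) in one cell can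
  only exist for the cell `Z`.
* If `a ^ y` and `b ^ y` are both in `Z` and `b ≥ a ^ 2`, `y ≥ 2 b`, then
  `a ^ y < T k ≤ a ^ (2 y) ≤ b ^ y < T l` for some `k < l`, and `T l ≤ b ^ (2 y)` is too small.
-/

namespace Pool.Agent.Results.MP_952e1b_co.TypeOneThreeCellsH45

/-- The sets `FE^I_n(X)` for `X = {x 0 < x 1 < …}`. -/
def FEI (x : ℕ → ℕ) : ℕ → Set ℕ
  | 0 => {x 0}
  | n + 1 => {z | ∃ y ∈ FEI x n, z = y ^ x (n + 1)} ∪ FEI x n ∪ {x (n + 1)}

/-- `C` is an exponential IP set of type I: it contains `FE^I(X) = ⋃ n, FE^I_n(X)` for some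
infinite set `X = {x 0 < x 1 < …}` of natural numbers. -/
def IsExpIPTypeI (C : Set ℕ) : Prop :=
  ∃ x : ℕ → ℕ, StrictMono x ∧ (⋃ n, FEI x n) ⊆ C

/-- the tower function -/
def T : ℕ → ℕ
  | 0 => 1
  | k + 1 => 2 ^ T k

theorem T_succ (k : ℕ) : T (k + 1) = 2 ^ T k := rfl

theorem T_strictMono : StrictMono T :=
  strictMono_nat_of_lt_succ fun k => by rw [T_succ]; exact Nat.lt_two_pow_self

theorem lt_T (k : ℕ) : k < T k := by
  induction k with
  | zero => simp [T]
  | succ k ih =>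
    have : T k < T (k + 1) := T_strictMono (Nat.lt_succ_self k)
    omega

theorem exists_lt_T (n : ℕ) : ∃ k, n < T k := ⟨n, lt_T n⟩

/-- the level of `n` -/
def lvl (n : ℕ) : ℕ := Nat.find (exists_lt_T n)

theorem lvl_spec (n : ℕ) : n < T (lvl n) := Nat.find_spec (exists_lt_T n)

theorem lvl_eq {n k : ℕ} (h1 : T k ≤ n) (h2 : n < T (k + 1)) : lvl n = k + 1 := by
  unfold lvl
  rw [Nat.find_eq_iff]
  refine ⟨h2, fun m hm => ?_⟩
  have : T m ≤ T k := T_strictMono.monotone (Nat.lt_succ_iff.1 hm)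
  omega

/-- the third cell -/
def Z (n : ℕ) : Prop := ∃ k, n < T k ∧ T k ≤ n ^ 2

open Classical in
/-- the partition -/
noncomputable def col (n : ℕ) : Fin 3 :=
  if Z n then 2 else if lvl n % 2 = 0 then 0 else 1

theorem col_eq_two {n : ℕ} : col n = 2 ↔ Z n := by
  unfold col
  split_ifs with h1 h2 <;> simp [h1]

theorem lvl_parity {m n : ℕ} (hm : ¬ Z m) (hn : ¬ Z n) (h : col m = col n) :
    lvl m % 2 = lvl n % 2 := by
  unfold col at h
  rw [if_neg hm, if_neg hn] at h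
  split_ifs at h with h1 h2 h2
  · omega
  · exact absurd h (by decide)
  · exact absurd h (by decide)
  · omega

theorem le_two_pow_mul (a y : ℕ) : a ^ y ≤ 2 ^ (a * y) := by
  rw [pow_mul]
  exact Nat.pow_le_pow_left Nat.lt_two_pow_self.le _

/-- Outside of `Z` exponentiation with a small base raises the level by one. -/
theorem lvl_pow {a y : ℕ} (ha : 2 ≤ a) (hay : a ≤ y) (hy : ¬ Z y) :
    lvl (a ^ y) = lvl y + 1 := by
  have h1 := lvl_spec y
  have h2 : y ^ 2 < T (lvl y) := by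
    by_contra h
    exact hy ⟨lvl y, h1, by omega⟩
  obtain ⟨k, hk⟩ : ∃ k, lvl y = k + 1 := by
    refine ⟨lvl y - 1, ?_⟩
    have : lvl y ≠ 0 := by
      intro h0
      rw [h0] at h1
      simp [T] at h1
      omega
    omega
  have h3 : T k ≤ y := by
    have := Nat.find_min (exists_lt_T y) (m := k) (by unfold lvl at hk; omega)
    omega
  rw [hk] at h2 ⊢
  apply lvl_eq
  · calc T (k + 1) = 2 ^ T k := rfl
      _ ≤ 2 ^ y := Nat.pow_le_pow_right (by norm_num) h3
      _ ≤ a ^ y := Nat.pow_le_pow_left ha _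
  · calc a ^ y ≤ 2 ^ (a * y) := le_two_pow_mul a y
      _ ≤ 2 ^ (y ^ 2) := Nat.pow_le_pow_right (by norm_num) (by nlinarith)
      _ < 2 ^ T (k + 1) := Nat.pow_lt_pow_right (by norm_num) h2

theorem sq_le_two_pow {y : ℕ} (hy : 4 ≤ y) : y ^ 2 ≤ 2 ^ y := by
  induction y, hy using Nat.le_induction with
  | base => norm_num
  | succ n hn ih =>
    rw [pow_succ 2 n]
    nlinarith

/-- `a ^ y` and `b ^ y` are not both in `Z` when `b ≥ a ^ 2` and `y` is large. -/
theorem not_both {a b y : ℕ} (ha : 2 ≤ a) (hb : a ^ 2 ≤ b) (hy : 2 * b ≤ y) (h1 : Z (a ^ y))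
    (h2 : Z (b ^ y)) : False := by
  obtain ⟨k, hk1, hk2⟩ := h1
  obtain ⟨l, hl1, hl2⟩ := h2
  have hb4 : 4 ≤ b := by nlinarith
  have h3 : T k < T l := by
    calc T k ≤ (a ^ y) ^ 2 := hk2
      _ = (a ^ 2) ^ y := by rw [← pow_mul, ← pow_mul, mul_comm]
      _ ≤ b ^ y := Nat.pow_le_pow_left hb _
      _ < T l := hl1
  have h4 : T (k + 1) ≤ T l :=
    T_strictMono.monotone (Nat.succ_le_of_lt (T_strictMono.lt_iff_lt.1 h3))
  have h5' : 2 ^ (2 ^ y) < 2 ^ (b * y * 2) := by
    calc 2 ^ (2 ^ y) ≤ 2 ^ (a ^ y) :=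
          Nat.pow_le_pow_right (by norm_num) (Nat.pow_le_pow_left ha _)
      _ < 2 ^ T k := Nat.pow_lt_pow_right (by norm_num) hk1
      _ = T (k + 1) := rfl
      _ ≤ T l := h4
      _ ≤ (b ^ y) ^ 2 := hl2
      _ ≤ (2 ^ (b * y)) ^ 2 := Nat.pow_le_pow_left (le_two_pow_mul b y) _
      _ = 2 ^ (b * y * 2) := by rw [← pow_mul]
  have h7 : 2 ^ y < b * y * 2 := (Nat.pow_lt_pow_iff_right (by norm_num)).1 h5'
  have h8 := sq_le_two_pow (y := y) (by omega)
  nlinarith

/-- There is no infinite `X` such that all `x_j` and all `x_i ^ x_j` with `i < j` are in one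
cell. -/
theorem no_pairs (x : ℕ → ℕ) (hx : StrictMono x) (i : Fin 3) (h1 : ∀ n, col (x n) = i)
    (h2 : ∀ m n, m < n → col (x m ^ x n) = i) : False := by
  have hge : ∀ n, n ≤ x n := fun n => hx.id_le n
  by_cases hi : i = 2
  · subst hi
    set a := x 2 with ha
    set m := a ^ 2 + 3 with hm
    set b := x m with hb
    set n := 2 * b + m + 1 with hn
    have ha2 : 2 ≤ a := hge 2
    have hb' : a ^ 2 ≤ b := le_trans (by omega) (hge m)
    have hy : 2 * b ≤ x n := le_trans (by omega) (hge n)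
    exact not_both ha2 hb' hy (col_eq_two.1 (h2 2 n (by omega))) (col_eq_two.1 (h2 m n (by omega)))
  · have hZ : ∀ y, col y = i → ¬ Z y := fun y hy hz => hi (hy ▸ col_eq_two.2 hz)
    have h3 := h1 3
    have h4 := h2 2 3 (by norm_num)
    have h5 := lvl_parity (hZ _ h3) (hZ _ h4) (h3.trans h4.symm)
    rw [lvl_pow (hge 2) (hx (by norm_num : 2 < 3)).le (hZ _ h3)] at h5
    omega

theorem mem_FEI (x : ℕ → ℕ) (n : ℕ) : x n ∈ FEI x n := by
  cases n with
  | zero => simp [FEI]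
  | succ n => simp [FEI]

theorem FEI_mono (x : ℕ → ℕ) : Monotone (FEI x) := by
  refine monotone_nat_of_le_succ fun n => ?_
  intro y hy
  exact Or.inl (Or.inr hy)

theorem pow_mem_FEI (x : ℕ → ℕ) {m n : ℕ} (h : m < n) : x m ^ x n ∈ FEI x n := by
  obtain ⟨k, rfl⟩ : ∃ k, n = k + 1 := ⟨n - 1, by omega⟩
  exact Or.inl (Or.inl ⟨x m, FEI_mono x (Nat.lt_succ_iff.1 h) (mem_FEI x m), rfl⟩)

theorem col_surjective : Function.Surjective col := by
  have hZ2 : Z 2 := ⟨2, by decide, by decide⟩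
  have hZ1 : ¬ Z 1 := by
    rintro ⟨k, h1, h2⟩
    omega
  have hZ0 : ¬ Z 0 := by
    rintro ⟨k, h1, h2⟩
    omega
  have h0 : lvl 0 = 0 := by
    unfold lvl
    rw [Nat.find_eq_zero]
    decide
  have h1 : lvl 1 = 1 := lvl_eq (by decide) (by decide)
  intro i
  fin_cases i
  · exact ⟨0, by simp [col, hZ0, h0]⟩
  · exact ⟨1, by simp [col, hZ1, h1]⟩
  · exact ⟨2, by simp [col, hZ2]⟩

/-- **Main theorem.** The natural numbers have a partition into three nonempty cells such that (1)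
no cell is an exponential IP set of type I; and even (2) for no infinite set
`X = {x 0 < x 1 < …}` are all `x j` and all `x i ^ x j` with `i < j` in the same cell. -/
theorem result : ∃ c : ℕ → Fin 3, Function.Surjective c ∧
    (∀ i : Fin 3, ¬ IsExpIPTypeI {n | c n = i}) ∧
    ∀ x : ℕ → ℕ, StrictMono x →
      ¬ ∃ i : Fin 3, (∀ n, c (x n) = i) ∧ ∀ m n, m < n → c (x m ^ x n) = i := by
  refine ⟨col, col_surjective, ?_, ?_⟩
  · rintro i ⟨x, hx, h⟩
    refine no_pairs x hx i (fun n => ?_) (fun m n hmn => ?_)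
    · exact h (Set.mem_iUnion.2 ⟨n, mem_FEI x n⟩)
    · exact h (Set.mem_iUnion.2 ⟨n, pow_mem_FEI x hmn⟩)
  · rintro x hx ⟨i, h1, h2⟩
    exact no_pairs x hx i h1 h2

end Pool.Agent.Results.MP_952e1b_co.TypeOneThreeCellsH45
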